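import Pool.Agent.Q70.AdO

set_option autoImplicit false

/-!
# Adapted metrics for sectional-hyperbolic sets

Every sectional-hyperbolic set `Λ` of a `C¹` flow has an adapted metric: a continuous Riemannian
metric for which the domination, the contraction of `E` and the sectional expansion of `F` hold for
all times `t > 0` with constant `1`.
-/

open Module Set Filter Topology Bundle Manifold
open scoped ContDiff

namespace Pool.Agent.Results.MP_d49e10_an.AdaptedMetric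

variable {V : Type} [NormedAddCommGroup V] [NormedSpace ℝ V] {M : Type} [TopologicalSpace M]
  [ChartedSpace V M] [IsManifold 𝓘(ℝ, V) ∞ M]

/-- The tangent spaces of `M`. -/
abbrev T (V : Type) [NormedAddCommGroup V] [NormedSpace ℝ V] {M : Type} [TopologicalSpace M]
    [ChartedSpace V M] (x : M) := TangentSpace 𝓘(ℝ, V) x

/-- Continuous Riemannian metrics on `M`. -/
abbrev Metric (V : Type) [NormedAddCommGroup V] [NormedSpace ℝ V] (M : Type)
    [TopologicalSpace M] [ChartedSpace V M] [IsManifold 𝓘(ℝ, V) ∞ M] :=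
  ContinuousRiemannianMetric V (fun x : M => T V x)

/-- `φ` is the flow of the `C¹` vector field `X`: `φ` is `C¹` on `ℝ × M`, `φ₀ = id`,
`φ_{s+t} = φ_s ∘ φ_t`, and the curves `t ↦ φ_t x` are integral curves of `X`. -/
structure IsFlow (X : ∀ x : M, T V x) (φ : ℝ → M → M) : Prop where
  field : ContMDiff 𝓘(ℝ, V) (𝓘(ℝ, V).prod 𝓘(ℝ, V)) 1
    (fun x => (⟨x, X x⟩ : TangentBundle 𝓘(ℝ, V) M))
  smooth : ContMDiff (𝓘(ℝ, ℝ).prod 𝓘(ℝ, V)) 𝓘(ℝ, V) 1 (fun p : ℝ × M => φ p.1 p.2)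
  zero : ∀ x, φ 0 x = x
  add : ∀ s t x, φ (s + t) x = φ s (φ t x)
  curve : ∀ x, IsMIntegralCurve (fun t => φ t x) X

/-- The norm of a tangent vector. -/
noncomputable def nrm (g : Metric V M) (x : M) (v : T V x) : ℝ := √(g.inner x v v)

/-- The area of the parallelogram spanned by two tangent vectors, which is the norm of `v ∧ w`
induced by the metric. -/
noncomputable def area (g : Metric V M) (x : M) (v w : T V x) : ℝ :=
  √(g.inner x v v * g.inner x w w - g.inner x v w ^ 2)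

/-- The derivative of the time-`t` map. -/
noncomputable abbrev D (φ : ℝ → M → M) (t : ℝ) (x : M) : T V x →L[ℝ] T V (φ t x) :=
  mfderiv 𝓘(ℝ, V) 𝓘(ℝ, V) (φ t) x

/-- A continuous invariant splitting `E ⊕ F` of `TM` over `Λ`, with constant dimensions and
`dim F ≥ 2`. Continuity means that the projection onto `E` along `F` is a continuous section over
`Λ` of the bundle of endomorphisms of `TM`. -/
structure InvariantSplitting (φ : ℝ → M → M) (Λ : Set M) (E F : ∀ x : M, Submodule ℝ (T V x)) :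
    Prop where
  compl : ∀ x ∈ Λ, IsCompl (E x) (F x)
  continuous : ∃ P : ∀ x : M, T V x →L[ℝ] T V x,
    (∀ x ∈ Λ, (∀ v ∈ E x, P x v = v) ∧ ∀ v ∈ F x, P x v = 0) ∧
    ContinuousOn (fun x => TotalSpace.mk' (V →L[ℝ] V) (E := fun x : M => T V x →L[ℝ] T V x) x (P x))
      Λ
  dims : ∃ e e' : ℕ, 2 ≤ e' ∧ ∀ x ∈ Λ, finrank ℝ (E x) = e ∧ finrank ℝ (F x) = e'
  invariant : ∀ t : ℝ, ∀ x ∈ Λ, (E x).map (D φ t x).toLinearMap = E (φ t x) ∧
    (F x).map (D φ t x).toLinearMap = F (φ t x)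

/-- The conditions 1-3 in the definition of a sectional-hyperbolic set, for the metric `g`, with
constants `C` and `l`. The first one says `‖Dφ_t|E_x‖ ‖Dφ_{-t}|F_{φ_t x}‖ ≤ C e^{-lt}`, the third
one `‖∧² Dφ_t (v ∧ w)‖ ≥ C⁻¹ e^{lt} ‖v ∧ w‖`. -/
structure Sectional (g : Metric V M) (φ : ℝ → M → M) (Λ : Set M)
    (E F : ∀ x : M, Submodule ℝ (T V x)) (C l : ℝ) : Prop where
  domination : ∀ x ∈ Λ, ∀ t : ℝ, 0 < t → ∀ u ∈ E x, ∀ v ∈ F (φ t x),
    nrm g (φ t x) (D φ t x u) * nrm g (φ (-t) (φ t x)) (D φ (-t) (φ t x) v) ≤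
      C * Real.exp (-(l * t)) * (nrm g x u * nrm g (φ t x) v)
  contraction : ∀ x ∈ Λ, ∀ t : ℝ, 0 < t → ∀ u ∈ E x,
    nrm g (φ t x) (D φ t x u) ≤ C * Real.exp (-(l * t)) * nrm g x u
  expansion : ∀ x ∈ Λ, ∀ t : ℝ, 0 < t → ∀ v ∈ F x, ∀ w ∈ F x,
    C⁻¹ * Real.exp (l * t) * area g x v w ≤ area g (φ t x) (D φ t x v) (D φ t x w)

omit [IsManifold 𝓘(ℝ, V) ∞ M] in
lemma mfderiv_congr' {f g : M → M} (h : f = g) (x : M) :
    (mfderiv 𝓘(ℝ, V) 𝓘(ℝ, V) f x : V →L[ℝ] V) = (mfderiv 𝓘(ℝ, V) 𝓘(ℝ, V) g x : V →L[ℝ] V) := by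
  subst h; rfl

omit [IsManifold 𝓘(ℝ, V) ∞ M] in
lemma slice {φ : ℝ → M → M}
    (h : ContMDiff (𝓘(ℝ, ℝ).prod 𝓘(ℝ, V)) 𝓘(ℝ, V) 1 (fun p : ℝ × M => φ p.1 p.2)) (t : ℝ) :
    ContMDiff 𝓘(ℝ, V) 𝓘(ℝ, V) 1 (φ t) :=
  h.comp (contMDiff_const.prodMk contMDiff_id)

lemma D_add {X : ∀ x : M, T V x} {φ : ℝ → M → M} (hφ : IsFlow X φ) (s t : ℝ) (x : M) :
    (D φ (s + t) x : V →L[ℝ] V) = (D φ s (φ t x) : V →L[ℝ] V) ∘L (D φ t x : V →L[ℝ] V) := by
  have h := mfderiv_comp x (((slice hφ.smooth s).mdifferentiable one_ne_zero) (φ t x))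
    (((slice hφ.smooth t).mdifferentiable one_ne_zero) x)
  have e : φ (s + t) = φ s ∘ φ t := funext fun y => hφ.add s t y
  exact (mfderiv_congr' e x).trans h

lemma D_zero {X : ∀ x : M, T V x} {φ : ℝ → M → M} (hφ : IsFlow X φ) (x : M) :
    (D φ 0 x : V →L[ℝ] V) = ContinuousLinearMap.id ℝ V := by
  have e : φ 0 = id := funext hφ.zero
  exact (mfderiv_congr' e x).trans mfderiv_id

lemma D_neg {X : ∀ x : M, T V x} {φ : ℝ → M → M} (hφ : IsFlow X φ) (t : ℝ) (x : M) (v : V) :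
    (D φ (-t) (φ t x) : V →L[ℝ] V) ((D φ t x : V →L[ℝ] V) v) = v := by
  have h := D_add hφ (-t) t x
  have h2 : (D φ (-t + t) x : V →L[ℝ] V) = ContinuousLinearMap.id ℝ V := by
    have e : φ (-t + t) = φ 0 := by rw [neg_add_cancel]
    exact (mfderiv_congr' e x).trans (D_zero hφ x)
  rw [h2] at h
  exact (congrArg (fun L : V →L[ℝ] V => L v) h).symm

omit M [TopologicalSpace M] [ChartedSpace V M] [IsManifold 𝓘(ℝ, V) ∞ M] in
lemma bij_of_inj [FiniteDimensional ℝ V] (L : V →L[ℝ] V) (h : Function.Injective L) :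
    Function.Bijective L :=
  ⟨h, (LinearMap.injective_iff_surjective (f := L.toLinearMap)).1 h⟩

/-- The cocycle. -/
lemma cflow [FiniteDimensional ℝ V] {X : ∀ x : M, T V x} {φ : ℝ → M → M} (hφ : IsFlow X φ)
    {Λ : Set M} (hf : ∀ t, ∀ x ∈ Λ, φ t x ∈ Λ)
    {E F : ∀ x : M, Submodule ℝ (T V x)} (hsplit : InvariantSplitting φ Λ E F) :
    Q70.Ad.CFlow (Q70.Ad.tframes V M) Λ E F φ (fun t x => D φ t x) := by
  have hcont : Continuous fun p : ℝ × M => φ p.1 p.2 := hφ.smooth.continuous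
  have htend : ∀ t₀ : ℝ, ∀ x₀ : M, Tendsto (fun p : ℝ × M => φ p.1 p.2) (𝓝 (t₀, x₀))
      (𝓝 (φ t₀ x₀)) := fun t₀ x₀ => hcont.tendsto (t₀, x₀)
  have hA : ∀ t₀ : ℝ, ∀ x₀ : M, Tendsto
      (fun p : ℝ × M => (Q70.Ad.tframes V M).L (φ t₀ x₀) (φ p.1 p.2) ∘L
        (D φ p.1 p.2 : V →L[ℝ] V) ∘L (Q70.Ad.tframes V M).S x₀ p.2) (𝓝 (t₀, x₀))
      (𝓝 ((Q70.Ad.tframes V M).L (φ t₀ x₀) (φ t₀ x₀) ∘L (D φ t₀ x₀ : V →L[ℝ] V) ∘L
        (Q70.Ad.tframes V M).S x₀ x₀)) := by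
    intro t₀ x₀
    have h1 : ContMDiffAt ((𝓘(ℝ, ℝ).prod 𝓘(ℝ, V)).prod 𝓘(ℝ, V)) 𝓘(ℝ, V) 1
        (Function.uncurry fun p : ℝ × M => φ p.1) ((t₀, x₀), x₀) := by
      have h2 : ContMDiff ((𝓘(ℝ, ℝ).prod 𝓘(ℝ, V)).prod 𝓘(ℝ, V)) (𝓘(ℝ, ℝ).prod 𝓘(ℝ, V)) 1
          (fun q : (ℝ × M) × M => (q.1.1, q.2)) :=
        (contMDiff_fst.comp contMDiff_fst).prodMk contMDiff_snd
      exact (hφ.smooth.comp h2).contMDiffAt
    have h3 : ContMDiffAt (𝓘(ℝ, ℝ).prod 𝓘(ℝ, V)) 𝓘(ℝ, V) 0 (fun p : ℝ × M => p.2) (t₀, x₀) :=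
      contMDiffAt_snd
    have := (ContMDiffAt.mfderiv (m := 0) (fun p : ℝ × M => φ p.1) (fun p : ℝ × M => p.2) h1 h3
      (by norm_num)).continuousAt
    exact this
  refine ⟨{ compl := hsplit.compl
            zero := fun x _ => hφ.zero x
            Azero := fun x _ => D_zero hφ x
            add := fun s t x _ => hφ.add s t x
            Aadd := fun s t x _ => D_add hφ s t x
            maps := hf
            bij := fun t x hx => ?_
            mapE := fun t x hx u hu => ?_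
            mapF := fun t x hx u hu => ?_
            tend := fun t x₀ _ => ?_
            Atend := fun t x₀ _ => ?_ }, fun t₀ x₀ _ => htend t₀ x₀, fun t₀ x₀ _ => hA t₀ x₀⟩
  · have hinj : Function.Injective (D φ t x : V →L[ℝ] V) := by
      intro u v huv
      rw [← D_neg hφ t x u, huv, D_neg hφ t x v]
    exact bij_of_inj (V := V) (D φ t x) hinj
  · have := (hsplit.invariant t x hx).1
    change D φ t x u ∈ E (φ t x)
    rw [← this]
    exact Submodule.mem_map_of_mem hu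
  · have := (hsplit.invariant t x hx).2
    change D φ t x u ∈ F (φ t x)
    rw [← this]
    exact Submodule.mem_map_of_mem hu
  · have h1 : Tendsto (fun x : M => (t, x)) (𝓝[Λ] x₀) (𝓝 (t, x₀)) :=
      (Continuous.tendsto (by fun_prop) x₀).mono_left nhdsWithin_le_nhds
    exact (htend t x₀).comp h1
  · have h1 : Tendsto (fun x : M => (t, x)) (𝓝[Λ] x₀) (𝓝 (t, x₀)) :=
      (Continuous.tendsto (by fun_prop) x₀).mono_left nhdsWithin_le_nhds
    exact (hA t x₀).comp h1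

/-- **Adapted metrics exist.** Let `φ` be the flow of a `C¹` vector field `X` on a manifold `M`
(Hausdorff and `σ`-compact, for instance closed), `Λ` a compact invariant set with a continuous
invariant splitting `E ⊕ F`, `dim F ≥ 2`, which is sectional-hyperbolic for a Riemannian metric
`g₀` with constants `C ≥ 1` and `l > 0`. Then there is a continuous Riemannian metric `g` on `M`
for which it is sectional-hyperbolic with constants `1` and some `l' > 0`. -/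
theorem result [FiniteDimensional ℝ V] [T2Space M] [SigmaCompactSpace M] (X : ∀ x : M, T V x)
    (φ : ℝ → M → M) (hφ : IsFlow X φ) (Λ : Set M) (hΛ : IsCompact Λ)
    (hinv : ∀ t, φ t '' Λ = Λ) (E F : ∀ x : M, Submodule ℝ (T V x))
    (hsplit : InvariantSplitting φ Λ E F) (g₀ : Metric V M)
    (h₀ : ∃ C l : ℝ, 1 ≤ C ∧ 0 < l ∧ Sectional g₀ φ Λ E F C l) :
    ∃ g : Metric V M, ∃ l : ℝ, 0 < l ∧ Sectional g φ Λ E F 1 l := by
  obtain ⟨P, hP1, hP2⟩ := hsplit.continuous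
  obtain ⟨C, l, hC, hl, hS⟩ := h₀
  have hmaps : ∀ t, ∀ x ∈ Λ, φ t x ∈ Λ := fun t x hx => hinv t ▸ mem_image_of_mem _ hx
  have hfl := cflow hφ hmaps hsplit
  have hact := hfl.act
  have hpd : ∀ (g : Metric V M) (x : M), Q70.Ad.PD (Q70.Ad.toBil (Q70.Ad.asE (g.inner x))) :=
    fun g x => ⟨fun u v => g.symm x u v, fun u hu => g.pos x u hu⟩
  have hn2 : ∀ (g : Metric V M) (x : M) (v : T V x), nrm g x v ^ 2 = g.inner x v v := fun g x v =>
    Real.sq_sqrt ((hpd g x).nonneg v)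
  have hn0 : ∀ (g : Metric V M) (x : M) (v : T V x), 0 ≤ nrm g x v := fun g x v =>
    Real.sqrt_nonneg _
  have hgr : ∀ (g : Metric V M) (x : M) (v w : T V x),
      Q70.Ad.gram (Q70.Ad.toBil (Q70.Ad.asE (g.inner x))) ![v, w] =
        g.inner x v v * g.inner x w w - g.inner x v w ^ 2 := by
    intro g x v w
    have : Q70.Ad.gram (Q70.Ad.toBil (Q70.Ad.asE (g.inner x))) ![v, w] =
        g.inner x v v * g.inner x w w - g.inner x v w * g.inner x w v := by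
      unfold Q70.Ad.gram
      rw [Matrix.det_fin_two]
      rfl
    rw [this, g.symm x w v]
    ring
  have hw2 : ∀ (g : Metric V M) (x : M) (v w : T V x), area g x v w ^ 2 =
      Q70.Ad.gram (Q70.Ad.toBil (Q70.Ad.asE (g.inner x))) ![v, w] := by
    intro g x v w
    rw [hgr]
    refine Real.sq_sqrt ?_
    rw [← hgr]
    exact Q70.Ad.gram_nonneg (hpd g x) _
  have hw0 : ∀ (g : Metric V M) (x : M) (v w : T V x), 0 ≤ area g x v w := fun g x v w =>
    Real.sqrt_nonneg _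
  have hv2 : ∀ v : Fin 2 → V, v = ![v 0, v 1] := fun v => by
    ext i; fin_cases i <;> rfl
  -- the vector `D φ (-t) (φ t x) (D φ t x v)` is `v`
  have hback : ∀ (g : Metric V M) (t : ℝ) (x : M) (v : T V x),
      nrm g (φ (-t) (φ t x)) (D φ (-t) (φ t x) (D φ t x v)) = nrm g x v := by
    intro g t x v
    have h1 : φ (-t) (φ t x) = x := by
      rw [← hφ.add, neg_add_cancel, hφ.zero]
    have h2 : ∀ y : M, y = x → ∀ w : V, w = v → nrm g y w = nrm g x v := by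
      rintro y rfl w rfl; rfl
    exact h2 _ h1 _ (D_neg hφ t x v)
  set G := Q70.Ad.G0 (E := V) (fun x : M => g₀.inner x) P with hG
  have hPE : ∀ x ∈ Λ, ∀ u ∈ E x, Q70.Ad.asEnd (P x) u = u := fun x hx u hu => (hP1 x hx).1 u hu
  have hPF : ∀ x ∈ Λ, ∀ u ∈ F x, Q70.Ad.asEnd (P x) u = 0 := fun x hx u hu => (hP1 x hx).2 u hu
  have hmet : Q70.Ad.Met (Q70.Ad.tframes V M) Λ E F G :=
    Q70.Ad.G0_met (g₀.continuous.continuousOn) hP2 (hpd g₀) hPE hPF
  have hGE : ∀ x ∈ Λ, ∀ u ∈ E x, G x u u = nrm g₀ x u ^ 2 := fun x hx u hu => by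
    rw [hn2]; exact Q70.Ad.G0_E (hPE x hx u hu) (hPE x hx u hu)
  have hGF : ∀ x ∈ Λ, ∀ u ∈ F x, G x u u = nrm g₀ x u ^ 2 := fun x hx u hu => by
    rw [hn2]; exact Q70.Ad.G0_F (hPF x hx u hu) (hPF x hx u hu)
  have hGg : ∀ x ∈ Λ, ∀ v : Fin 2 → T V x, (∀ i, v i ∈ F x) →
      Q70.Ad.gram (G x) v = area g₀ x (v 0) (v 1) ^ 2 := fun x hx v hv => by
    rw [hw2]
    have e1 : Q70.Ad.gram (G x) v = Q70.Ad.gram (Q70.Ad.toBil (Q70.Ad.asE (g₀.inner x))) v := by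
      unfold Q70.Ad.gram
      congr 1
      ext i j
      exact Q70.Ad.G0_F (hPF x hx _ (hv i)) (hPF x hx _ (hv j))
    rw [e1]
    congr 1
    exact hv2 v
  -- the time
  have hC0 : 0 < C := by linarith
  have hlogC : 0 ≤ Real.log C := Real.log_nonneg hC
  set T₀ : ℝ := (Real.log C + 1) / l with hT₀
  have hT₀0 : 0 < T₀ := by positivity
  have hlT : l * T₀ = Real.log C + 1 := by rw [hT₀]; field_simp
  have hexp1 : C⁻¹ * Real.exp (l * T₀) = Real.exp 1 := by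
    rw [hlT, Real.exp_add, Real.exp_log hC0, ← mul_assoc, inv_mul_cancel₀ hC0.ne', one_mul]
  have hexp2 : C * Real.exp (-(l * T₀)) = Real.exp (-1) := by
    rw [hlT, neg_add, Real.exp_add, Real.exp_neg, Real.exp_log hC0, ← mul_assoc,
      mul_inv_cancel₀ hC0.ne', one_mul]
  have hsq1 : Real.exp 2 = Real.exp 1 ^ 2 := by
    rw [← Real.exp_nat_mul]; norm_num
  have hsq2 : Real.exp (-2) = Real.exp (-1) ^ 2 := by
    rw [← Real.exp_nat_mul]; norm_num
  have h1 : Q70.Ad.Vol Λ F φ (fun t x => D φ t x) 2 (Real.exp 2) T₀ G := by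
    intro x hx v hv
    have e1 := hGg x hx v hv
    have e2 := hGg _ (hact.maps T₀ x hx) (fun i => D φ T₀ x (v i))
      (fun i => hact.mapF T₀ x hx _ (hv i))
    rw [e1]
    refine le_trans ?_ (le_of_eq e2.symm)
    rw [hsq1, ← mul_pow]
    refine pow_le_pow_left₀ (mul_nonneg (Real.exp_pos _).le (hw0 _ _ _ _)) ?_ 2
    rw [← hexp1]
    exact hS.expansion x hx T₀ hT₀0 (v 0) (hv 0) (v 1) (hv 1)
  have h2 : Q70.Ad.Con Λ E φ (fun t x => D φ t x) (Real.exp (-2)) T₀ G := by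
    intro x hx u hu
    have e1 := hGE x hx u hu
    have e2 := hGE _ (hact.maps T₀ x hx) (D φ T₀ x u) (hact.mapE T₀ x hx _ hu)
    rw [e1]
    refine le_trans (le_of_eq e2) ?_
    rw [hsq2, ← mul_pow]
    refine pow_le_pow_left₀ (hn0 _ _ _) ?_ 2
    rw [← hexp2]
    exact hS.contraction x hx T₀ hT₀0 u hu
  have h3 : Q70.Ad.Dom Λ E F φ (fun t x => D φ t x) (Real.exp (-2)) T₀ G := by
    intro x hx u hu v hv
    have e1 := hGE x hx u hu
    have e2 := hGE _ (hact.maps T₀ x hx) (D φ T₀ x u) (hact.mapE T₀ x hx _ hu)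
    have e3 := hGF x hx v hv
    have e4 := hGF _ (hact.maps T₀ x hx) (D φ T₀ x v) (hact.mapF T₀ x hx _ hv)
    change G (φ T₀ x) (D φ T₀ x u) (D φ T₀ x u) * G x v v ≤
      Real.exp (-2) * (G x u u * G (φ T₀ x) (D φ T₀ x v) (D φ T₀ x v))
    rw [e1, e2, e3, e4, hsq2, ← mul_pow, ← mul_pow, ← mul_pow]
    refine pow_le_pow_left₀ (mul_nonneg (hn0 _ _ _) (hn0 _ _ _)) ?_ 2
    have h := hS.domination x hx T₀ hT₀0 u hu (D φ T₀ x v) (hact.mapF T₀ x hx _ hv)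
    rw [hback, hexp2] at h
    exact h
  obtain ⟨H, hHmet, hH⟩ := Q70.Ad.flow_adapt hfl hΛ hT₀0 (Real.exp_pos _) (Real.exp_pos _)
    (Real.exp_pos _) hmet h1 h2 h3
  obtain ⟨g, hg⟩ := Q70.Ad.exists_extension hΛ.isClosed hHmet.pd hHmet.cont
  have hpw1 : ∀ t : ℝ, Real.exp 2 ^ (t / T₀) = Real.exp (1 / T₀ * t) ^ 2 := by
    intro t
    rw [← Real.exp_mul, ← Real.exp_nat_mul]
    congr 1
    push_cast
    ring
  have hpw2 : ∀ t : ℝ, Real.exp (-2) ^ (t / T₀) = Real.exp (-(1 / T₀ * t)) ^ 2 := by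
    intro t
    rw [← Real.exp_mul, ← Real.exp_nat_mul]
    congr 1
    push_cast
    ring
  have hnH : ∀ x ∈ Λ, ∀ v : T V x, nrm g x v ^ 2 = H x v v := fun x hx v => by
    rw [hn2, ← hg x hx]; rfl
  have hwH : ∀ x ∈ Λ, ∀ v w : T V x, area g x v w ^ 2 = Q70.Ad.gram (H x) ![v, w] :=
    fun x hx v w => by rw [hw2, hg x hx]
  refine ⟨g, 1 / T₀, by positivity, ⟨fun x hx t ht u hu v hv => ?_, fun x hx t ht u hu => ?_,
    fun x hx t ht v hv w hw => ?_⟩⟩
  · have hv' := hv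
    rw [← (hsplit.invariant t x hx).2] at hv'
    obtain ⟨v₀, hv₀, rfl⟩ := hv'
    change nrm g (φ t x) (D φ t x u) * nrm g (φ (-t) (φ t x)) (D φ (-t) (φ t x) (D φ t x v₀)) ≤
      1 * Real.exp (-(1 / T₀ * t)) * (nrm g x u * nrm g (φ t x) (D φ t x v₀))
    rw [hback, one_mul]
    refine le_of_sq_le_sq ?_ (mul_nonneg (Real.exp_pos _).le
      (mul_nonneg (hn0 _ _ _) (hn0 _ _ _)))
    rw [mul_pow, mul_pow, mul_pow, hnH _ (hmaps t x hx), hnH _ (hmaps t x hx), hnH x hx, hnH x hx,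
      ← hpw2]
    exact (hH t ht.le).2.2 x hx u hu v₀ hv₀
  · rw [one_mul]
    refine le_of_sq_le_sq ?_ (mul_nonneg (Real.exp_pos _).le (hn0 _ _ _))
    rw [mul_pow, hnH _ (hmaps t x hx), hnH x hx, ← hpw2]
    exact (hH t ht.le).2.1 x hx u hu
  · rw [inv_one, one_mul]
    refine le_of_sq_le_sq ?_ (hw0 _ _ _ _)
    rw [mul_pow, hwH _ (hmaps t x hx), hwH x hx, ← hpw1]
    have h := (hH t ht.le).1 x hx ![v, w] (by
      intro i
      fin_cases i
      · exact hv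
      · exact hw)
    refine h.trans (le_of_eq ?_)
    congr 1
    ext i
    fin_cases i <;> rfl

end Pool.Agent.Results.MP_d49e10_an.AdaptedMetric
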